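import Pool.Agent.Helper88.RS.DG1

/-!
# Project RS, packet RS-KUM: a quarter of the primes
-/

set_option autoImplicit false

namespace Pool.Agent.Helper84.RS

open NumberField Module IsDedekindDomain Polynomial
open Pool.Agent.Helper38.RS

/-! ## Summability over the primes -/

section summ

variable {F : Type} [Field F] [NumberField F]

theorem term_le (v : HeightOneSpectrum (𝓞 F)) (s : ℝ) (hs : 1 < s) :
    (Ideal.absNorm v.asIdeal : ℝ) ^ (-s) ≤ 1 / (Helper88.RS.lp v : ℝ) ^ s := by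
  have := v.isPrime
  have := Helper88.RS.lp_liesOver v
  obtain ⟨f, hN⟩ : ∃ f : ℕ, Ideal.absNorm v.asIdeal = Helper88.RS.lp v ^ f :=
    ⟨_, Ideal.absNorm_eq_pow_inertiaDeg' v.asIdeal (Helper88.RS.lp_prime v)⟩
  have h1 : Ideal.absNorm v.asIdeal ≠ 1 := by
    intro h
    rw [Ideal.absNorm_eq_one_iff] at h
    exact v.isPrime.ne_top h
  have hf1 : 1 ≤ f := by
    rcases Nat.lt_or_ge f 1 with h | h
    · exfalso
      interval_cases f
      rw [pow_zero] at hN
      exact h1 hN
    · exact h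
  have hle : Helper88.RS.lp v ≤ Ideal.absNorm v.asIdeal := by
    rw [hN]
    calc Helper88.RS.lp v = Helper88.RS.lp v ^ 1 := (pow_one _).symm
      _ ≤ _ := Nat.pow_le_pow_right (Helper88.RS.lp_prime v).pos hf1
  have hp := (Helper88.RS.lp_prime v).two_le
  have hpR : (2 : ℝ) ≤ (Helper88.RS.lp v : ℝ) := by exact_mod_cast hp
  have hR : (Helper88.RS.lp v : ℝ) ≤ (Ideal.absNorm v.asIdeal : ℝ) := by exact_mod_cast hle
  rw [Real.rpow_neg (by positivity), ← one_div]
  apply one_div_le_one_div_of_le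
  · apply Real.rpow_pos_of_pos
    linarith
  · exact Real.rpow_le_rpow (by linarith) hR (by linarith)

theorem fin_sum_le (T : Finset (HeightOneSpectrum (𝓞 F))) (s : ℝ) (hs : 1 < s) :
    ∑ v ∈ T, (Ideal.absNorm v.asIdeal : ℝ) ^ (-s) ≤
      (finrank ℚ F : ℝ) * ∑' n : ℕ, 1 / (n : ℝ) ^ s := by
  classical
  have hsum : Summable (fun n : ℕ => 1 / (n : ℝ) ^ s) :=
    Real.summable_one_div_nat_rpow.mpr hs
  have h0 : ∑ v ∈ T, (Ideal.absNorm v.asIdeal : ℝ) ^ (-s)
      ≤ ∑ v ∈ T, 1 / (Helper88.RS.lp v : ℝ) ^ s :=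
    Finset.sum_le_sum fun v _ => term_le v s hs
  have h1 : ∑ v ∈ T, 1 / (Helper88.RS.lp v : ℝ) ^ s
      = ∑ p ∈ T.image Helper88.RS.lp,
          ∑ v ∈ T.filter (fun v => Helper88.RS.lp v = p), 1 / (Helper88.RS.lp v : ℝ) ^ s :=
    (Finset.sum_fiberwise_of_maps_to
      (fun v hv => Finset.mem_image_of_mem Helper88.RS.lp hv) _).symm
  have h2 : ∀ p ∈ T.image Helper88.RS.lp,
      ∑ v ∈ T.filter (fun v => Helper88.RS.lp v = p), 1 / (Helper88.RS.lp v : ℝ) ^ s
      ≤ (finrank ℚ F : ℝ) * (1 / (p : ℝ) ^ s) := by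
    intro p _
    have h3 : ∑ v ∈ T.filter (fun v => Helper88.RS.lp v = p), 1 / (Helper88.RS.lp v : ℝ) ^ s
        = ∑ v ∈ T.filter (fun v => Helper88.RS.lp v = p), 1 / (p : ℝ) ^ s := by
      refine Finset.sum_congr rfl fun v hv => ?_
      rw [(Finset.mem_filter.mp hv).2]
    rw [h3, Finset.sum_const, nsmul_eq_mul]
    refine mul_le_mul_of_nonneg_right ?_ (by positivity)
    exact_mod_cast Helper88.RS.card_fibre T p
  refine h0.trans ?_
  rw [h1]
  refine (Finset.sum_le_sum h2).trans ?_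
  rw [← Finset.mul_sum]
  refine mul_le_mul_of_nonneg_left ?_ (by positivity)
  exact hsum.sum_le_tsum _ (fun n _ => by positivity)

theorem summable_norm (F : Type) [Field F] [NumberField F] (s : ℝ) (hs : 1 < s) :
    Summable (fun v : HeightOneSpectrum (𝓞 F) => (Ideal.absNorm v.asIdeal : ℝ) ^ (-s)) :=
  summable_of_sum_le (fun v => by positivity) (fun T => fin_sum_le T s hs)

end summ

/-! ## Quadratic extensions -/

theorem exists_quad (F : Type) [Field F] [NumberField F] (x : F) (hx : ¬ ∃ z : F, z ^ 2 = x) :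
    ∃ (E : Type) (_ : Field E) (_ : NumberField E) (_ : Algebra F E) (r : E),
      finrank F E = 2 ∧ r ^ 2 = algebraMap F E x := by
  have hirr : Irreducible (X ^ 2 - C x : F[X]) :=
    X_pow_sub_C_irreducible_of_prime Nat.prime_two (fun b hb => hx ⟨b, hb⟩)
  have hfact : Fact (Irreducible (X ^ 2 - C x : F[X])) := ⟨hirr⟩
  let E := AdjoinRoot (X ^ 2 - C x : F[X])
  have hne : (X ^ 2 - C x : F[X]) ≠ 0 := hirr.ne_zero
  have hfin : finrank F E = 2 := by
    have h := (AdjoinRoot.powerBasis hne).finrank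
    rw [AdjoinRoot.powerBasis_dim, natDegree_X_pow_sub_C] at h
    exact h
  have hFE : FiniteDimensional F E := (AdjoinRoot.powerBasis hne).finite
  have hc : CharZero E := charZero_of_injective_algebraMap (algebraMap F E).injective
  have hQ : FiniteDimensional ℚ E := FiniteDimensional.trans ℚ F E
  have hN : NumberField E := { to_charZero := hc, to_finiteDimensional := hQ }
  refine ⟨E, inferInstance, hN, inferInstance, AdjoinRoot.root _, hfin, ?_⟩
  have h := AdjoinRoot.eval₂_root (X ^ 2 - C x : F[X])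
  rw [eval₂_sub, eval₂_pow, eval₂_X, eval₂_C, sub_eq_zero] at h
  exact h

theorem nonsq_up (F E : Type) [Field F] [NumberField F] [Field E] [NumberField E] [Algebra F E]
    (x y : F) (r : E) (h2 : finrank F E = 2) (hr : r ^ 2 = algebraMap F E x)
    (hx0 : x ≠ 0) (hx : ¬ ∃ z : F, z ^ 2 = x) (hy : ¬ ∃ z : F, z ^ 2 = y)
    (hxy : ¬ ∃ z : F, z ^ 2 = x * y) : ¬ ∃ z : E, z ^ 2 = algebraMap F E y := by
  rintro ⟨z, hz⟩
  have hinj : Function.Injective (algebraMap F E) := (algebraMap F E).injective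
  have hrF : ∀ c : F, algebraMap F E c ≠ r := by
    intro c hc
    apply hx
    refine ⟨c, hinj ?_⟩
    rw [map_pow, hc, hr]
  have hind : ∀ a b : F, algebraMap F E a + algebraMap F E b * r = 0 → a = 0 ∧ b = 0 := by
    intro a b h
    have hb : b = 0 := by
      by_contra hb
      apply hrF (-(a / b))
      have hb' : algebraMap F E b ≠ 0 := by
        rw [Ne, map_eq_zero_iff _ hinj]
        exact hb
      rw [map_neg, map_div₀, ← neg_div, div_eq_iff hb']
      linear_combination (-1 : E) * h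
    subst hb
    rw [map_zero, zero_mul, add_zero, map_eq_zero_iff _ hinj] at h
    exact ⟨h, rfl⟩
  have hli : LinearIndependent F ![(1 : E), r] := by
    rw [LinearIndependent.pair_iff]
    intro a b h
    apply hind a b
    rw [Algebra.smul_def, Algebra.smul_def, mul_one] at h
    exact h
  have hspan : Submodule.span F (Set.range ![(1 : E), r]) = ⊤ := by
    apply hli.span_eq_top_of_card_eq_finrank
    rw [h2]
    rfl
  have hzmem : z ∈ Submodule.span F (Set.range ![(1 : E), r]) := by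
    rw [hspan]
    trivial
  rw [Matrix.range_cons, Matrix.range_cons, Matrix.range_empty, Set.union_empty,
    Set.singleton_union, Submodule.mem_span_pair] at hzmem
  obtain ⟨a, b, hab⟩ := hzmem
  rw [Algebra.smul_def, Algebra.smul_def, mul_one] at hab
  have hkey : algebraMap F E (a ^ 2 + b ^ 2 * x - y) + algebraMap F E (2 * a * b) * r = 0 := by
    rw [map_sub, map_add, map_mul, map_mul, map_mul, map_pow, map_pow, ← hr, ← hz, ← hab,
      map_ofNat]
    ring
  obtain ⟨k1, k2⟩ := hind _ _ hkey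
  have h2ne : (2 : F) ≠ 0 := two_ne_zero
  rcases mul_eq_zero.mp k2 with h | h
  · have ha : a = 0 := by
      rcases mul_eq_zero.mp h with h | h
      · exact absurd h h2ne
      · exact h
    subst ha
    apply hxy
    refine ⟨b * x, ?_⟩
    linear_combination x * k1
  · subst h
    apply hy
    refine ⟨a, ?_⟩
    linear_combination k1

/-! ## Counting -/

theorem count (hSPL : S_SPL) (F E : Type) [Field F] [NumberField F] [Field E] [NumberField E]
    [Algebra F E] (x : F) (r : E) (h2 : finrank F E = 2) (hr : r ^ 2 = algebraMap F E x)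
    (hx : ¬ ∃ y : F, y ^ 2 = x)
    (A : Set (HeightOneSpectrum (𝓞 F))) (B : Set (HeightOneSpectrum (𝓞 E)))
    (hA : ∀ v ∈ A, v.valuation F 2 = 1 ∧ LocSq v x)
    (hAB : ∀ v ∈ A, ∀ w : HeightOneSpectrum (𝓞 E),
      w.asIdeal.comap (algebraMap (𝓞 F) (𝓞 E)) = v.asIdeal → w ∈ B)
    (s : ℝ) (hs : 1 < s) : 2 * pz A s ≤ pz B s := by
  have hch : ∀ v : A, ∃ w w' : HeightOneSpectrum (𝓞 E), w ≠ w' ∧
      w.asIdeal.comap (algebraMap (𝓞 F) (𝓞 E)) = v.1.asIdeal ∧
      w'.asIdeal.comap (algebraMap (𝓞 F) (𝓞 E)) = v.1.asIdeal ∧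
      Ideal.absNorm w.asIdeal = Ideal.absNorm v.1.asIdeal ∧
      Ideal.absNorm w'.asIdeal = Ideal.absNorm v.1.asIdeal := by
    intro v
    exact (hSPL F E x r h2 hr hx v.1 (hA v.1 v.2).1 (hA v.1 v.2).2).1
  choose w w' hne hc hc' hn hn' using hch
  let e : A ⊕ A → B := Sum.elim (fun v => ⟨w v, hAB v.1 v.2 _ (hc v)⟩)
    (fun v => ⟨w' v, hAB v.1 v.2 _ (hc' v)⟩)
  have hinj : Function.Injective e := by
    intro a b hab
    rcases a with a | a <;> rcases b with b | b
    · have h : w a = w b := congrArg Subtype.val hab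
      have h1 : a.1.asIdeal = b.1.asIdeal := by rw [← hc a, ← hc b, h]
      have h3 : a = b := Subtype.ext (HeightOneSpectrum.ext h1)
      rw [h3]
    · exfalso
      have h : w a = w' b := congrArg Subtype.val hab
      have h1 : a.1.asIdeal = b.1.asIdeal := by rw [← hc a, ← hc' b, h]
      have h3 : a = b := Subtype.ext (HeightOneSpectrum.ext h1)
      subst h3
      exact hne a h
    · exfalso
      have h : w' a = w b := congrArg Subtype.val hab
      have h1 : a.1.asIdeal = b.1.asIdeal := by rw [← hc' a, ← hc b, h]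
      have h3 : a = b := Subtype.ext (HeightOneSpectrum.ext h1)
      subst h3
      exact hne a h.symm
    · have h : w' a = w' b := congrArg Subtype.val hab
      have h1 : a.1.asIdeal = b.1.asIdeal := by rw [← hc' a, ← hc' b, h]
      have h3 : a = b := Subtype.ext (HeightOneSpectrum.ext h1)
      rw [h3]
  have hsA : Summable (fun v : A => (Ideal.absNorm v.1.asIdeal : ℝ) ^ (-s)) :=
    (summable_norm F s hs).subtype A
  have hsB : Summable (fun v : B => (Ideal.absNorm v.1.asIdeal : ℝ) ^ (-s)) :=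
    (summable_norm E s hs).subtype B
  let f : A ⊕ A → ℝ := Sum.elim (fun v => (Ideal.absNorm v.1.asIdeal : ℝ) ^ (-s))
    (fun v => (Ideal.absNorm v.1.asIdeal : ℝ) ^ (-s))
  have hf : HasSum f (pz A s + pz A s) := by
    apply HasSum.sum
    · exact hsA.hasSum
    · exact hsA.hasSum
  have hle : ∑' a, f a ≤ pz B s := by
    unfold pz
    apply Summable.tsum_le_tsum_of_inj e hinj
    · intro b _
      positivity
    · intro a
      rcases a with a | a
      · show (Ideal.absNorm a.1.asIdeal : ℝ) ^ (-s) ≤ (Ideal.absNorm (w a).asIdeal : ℝ) ^ (-s)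
        rw [hn a]
      · show (Ideal.absNorm a.1.asIdeal : ℝ) ^ (-s) ≤ (Ideal.absNorm (w' a).asIdeal : ℝ) ^ (-s)
        rw [hn' a]
    · exact hf.summable
    · exact hsB
  rw [hf.tsum_eq] at hle
  linarith

/-- Packet RS-KUM. -/
theorem s_kum (h1 : S_PSM) (h2 : S_SPL) : Pool.Agent.Helper38.RS.S_KUM := by
  intro M _ _ x y hx0 hy0 hx hy hxy
  obtain ⟨E, _, _, _, r, hE2, hr⟩ := exists_quad M x hx
  have hyE := nonsq_up M E x y r hE2 hr hx0 hx hy hxy
  obtain ⟨E', _, _, _, r', hE2', hr'⟩ := exists_quad E (algebraMap M E y) hyE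
  obtain ⟨C, hC⟩ := h1 E'
  refine ⟨C / 4, fun s hs1 hs2 => ?_⟩
  have hA := count h2 M E x r hE2 hr hx
    {v : HeightOneSpectrum (𝓞 M) | v.valuation M 2 = 1 ∧ LocSq v x ∧ LocSq v y}
    {w : HeightOneSpectrum (𝓞 E) | w.valuation E 2 = 1 ∧ LocSq w (algebraMap M E y)}
    (fun v hv => ⟨hv.1, hv.2.1⟩)
    (fun v hv w hw => by
      have h := (h2 M E x r hE2 hr hx v hv.1 hv.2.1).2 w hw
      exact ⟨h.1, h.2 y hv.2.2⟩) s hs1
  have hB := count h2 E E' (algebraMap M E y) r' hE2' hr' hyE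
    {w : HeightOneSpectrum (𝓞 E) | w.valuation E 2 = 1 ∧ LocSq w (algebraMap M E y)}
    Set.univ (fun v hv => hv) (fun v hv w hw => Set.mem_univ _) s hs1
  have hD := (abs_le.mp (hC s hs1 hs2)).2
  linarith

end Pool.Agent.Helper84.RS
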